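import Pool.Agent.Helper47.RS.OneOrbit

/-!
# RS, exponent 1/4: transitive permutation groups and functorial series
-/

set_option autoImplicit false

open scoped Pointwise

namespace Pool.Agent.Helper47.RS4

open Pool.Agent.Helper98.RS Pool.Agent.Helper47.RS

open scoped commutatorElement

/-- `F` is a functorial subgroup. -/
def Fct (F : ∀ (G : Type) [Group G], Subgroup G) : Prop :=
  ∀ (G K : Type) [Group G] [Group K] (f : G →* K) (x : G), x ∈ F G → f x ∈ F K

/-- `F` is trivial on all finite soluble completely reducible linear groups of degree at most `a`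
over the field with `r` elements. -/
def LinF (F : ∀ (G : Type) [Group G], Subgroup G) (r a : ℕ) : Prop :=
  ∀ [Fact r.Prime] (H : Type) [Group H] [Finite H] (V : Type) [AddCommGroup V] [Module (ZMod r) V]
    [Finite V] (ρ : Representation (ZMod r) H V), Group.IsSolvable H → Function.Injective ρ →
    CR ρ → Module.finrank (ZMod r) V ≤ a → F H = ⊥

/-- Kernel form of `LinF`. -/
theorem linF_ker {F : ∀ (G : Type) [Group G], Subgroup G} (hF : Fct F) {p a : ℕ}
    (hm : LinF F p a)
    [Fact p.Prime] (H : Type) [Group H] [Finite H] (V : Type) [AddCommGroup V] [Module (ZMod p) V]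
    [Finite V] (ρ : Representation (ZMod p) H V) (hH : Group.IsSolvable H) (hcr : CR ρ)
    (hfr : Module.finrank (ZMod p) V ≤ a) (g : H) (hg : g ∈ F H) : ρ g = 1 := by
  classical
  let f : H →* (Module.End (ZMod p) V)ˣ := MonoidHom.toHomUnits ρ
  have hfv : ∀ h, ((f h : (Module.End (ZMod p) V)ˣ) : Module.End (ZMod p) V) = ρ h := fun h => rfl
  let τ : Representation (ZMod p) f.range V :=
    (Units.coeHom (Module.End (ZMod p) V)).comp f.range.subtype
  have hτ : ∀ h : H, τ (f.rangeRestrict h) = ρ h := fun h => rfl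
  have hinj : Function.Injective τ := by
    intro x y hxy
    apply Subtype.ext
    exact Units.ext hxy
  have hcr' : CR τ := by
    intro W hW
    obtain ⟨W', hW', hc⟩ := hcr W (fun h v hv => by
      have := hW (f.rangeRestrict h) v hv
      rwa [hτ] at this)
    refine ⟨W', ?_, hc⟩
    rintro h v hv
    obtain ⟨h', rfl⟩ := f.rangeRestrict_surjective h
    rw [hτ]
    exact hW' h' v hv
  have : Finite f.range := Finite.of_surjective _ f.rangeRestrict_surjective
  have hsol : Group.IsSolvable f.range :=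
    Group.isSolvable_of_surjective f.rangeRestrict_surjective
  have hd := hm f.range V τ hsol hinj hcr' hfr
  have h1 : f.rangeRestrict g ∈ F f.range := hF _ _ f.rangeRestrict g hg
  rw [hd, Subgroup.mem_bot] at h1
  rw [← hτ g, h1, map_one]

theorem one_orbit' {H : Type} [Group H] [Finite H]
    {X : Type} [MulAction H X] (A : Subgroup H) [A.Normal] (hA : A ≠ ⊥)
    (r : ℕ) [Fact r.Prime] (hc : ∀ x ∈ A, ∀ y ∈ A, x * y = y * x) (hexp : ∀ x ∈ A, x ^ r = 1)
    (hmin : ∀ B : Subgroup H, B.Normal → B ≤ A → B = ⊥ ∨ B = A) (a : ℕ) (x : X)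
    (hx : Nat.card (MulAction.orbit A x) = r ^ a) (k : Kor A X)
    (hm : ∀ (U : Type) [AddCommGroup U] [Module (ZMod r) U] [Finite U]
      (σ : Representation (ZMod r) (Kor A X) U), CR σ → Module.finrank (ZMod r) U ≤ a → σ k = 1) :
    ∃ b ∈ A, ∀ y ∈ MulAction.orbit A x, (k : H) • y = b • y := by
  classical
  obtain ⟨V, i1, i2, ρ, q, hadd, h0, hsurj, hconj, hcard⟩ := sec_rep (⊥ : Subgroup H) A r
    (by
      intro x hx y hy
      rw [Subgroup.mem_bot, hc x hx y hy]
      group)
    (by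
      intro x hx
      rw [Subgroup.mem_bot]
      exact hexp x hx)
  have q1 : q 1 = 0 := (h0 1 A.one_mem).mpr (Subgroup.mem_bot.mpr rfl)
  have qinv : ∀ b ∈ A, q b⁻¹ = - q b := by
    intro b hb
    have h1 := hadd b hb b⁻¹ (A.inv_mem hb)
    rw [mul_inv_cancel, q1] at h1
    exact (neg_eq_of_add_eq_zero_right h1.symm).symm
  have qinj : ∀ b ∈ A, ∀ c ∈ A, q b = q c → b = c := by
    intro b hb c hcA h
    have h1 := hadd b hb c⁻¹ (A.inv_mem hcA)
    rw [qinv c hcA, h, add_neg_cancel, h0 _ (A.mul_mem hb (A.inv_mem hcA)), Subgroup.mem_bot] at h1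
    exact mul_inv_eq_one.mp h1
  have hfV : Finite V := by
    let f : A → V := fun b => q b
    refine Finite.of_surjective f ?_
    intro v
    obtain ⟨b, hb, hbv⟩ := hsurj v
    exact ⟨⟨b, hb⟩, hbv⟩
  -- irreducibility
  have hirr : Irr ρ := by
    constructor
    · obtain ⟨b, hb, hb1⟩ := (Subgroup.bot_or_exists_ne_one A).resolve_left hA
      refine ⟨⟨q b, 0, ?_⟩⟩
      intro h
      exact hb1 (Subgroup.mem_bot.mp ((h0 b hb).mp h))
    · intro W hW
      let B : Subgroup H :=
        { carrier := {b | b ∈ A ∧ q b ∈ W}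
          one_mem' := ⟨A.one_mem, by rw [q1]; exact W.zero_mem⟩
          mul_mem' := by
            rintro b c ⟨hb, hb'⟩ ⟨hc, hc'⟩
            exact ⟨A.mul_mem hb hc, by rw [hadd b hb c hc]; exact W.add_mem hb' hc'⟩
          inv_mem' := by
            rintro b ⟨hb, hb'⟩
            exact ⟨A.inv_mem hb, by rw [qinv b hb]; exact W.neg_mem hb'⟩ }
      have hB : B.Normal := by
        constructor
        rintro b ⟨hb, hb'⟩ g
        exact ⟨Subgroup.Normal.conj_mem inferInstance b hb g, by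
          rw [hconj g b hb]
          exact hW g _ hb'⟩
      rcases hmin B hB (fun b hb => hb.1) with h | h
      · left
        rw [Submodule.eq_bot_iff]
        intro v hv
        obtain ⟨b, hb, rfl⟩ := hsurj v
        have h2 : b ∈ B := ⟨hb, hv⟩
        rw [h, Subgroup.mem_bot] at h2
        rw [h2, q1]
      · right
        rw [Submodule.eq_top_iff']
        intro v
        obtain ⟨b, hb, rfl⟩ := hsurj v
        have h2 : b ∈ B := by rw [h]; exact hb
        exact h2.2
  have hcr : CR ρ := cr_of_irr ρ hirr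
  have hfd : FiniteDimensional (ZMod r) V := Module.Finite.of_finite
  have hcrK : CR (resrep ρ (Kor A X)) := cr_restrict ρ hcr (Kor A X)
  -- the stabiliser as a submodule
  have hfix : ∀ b ∈ A, b • x = x → ∀ y ∈ MulAction.orbit A x, b • y = y := by
    rintro b hb hbx y ⟨⟨c, hcA⟩, rfl⟩
    change b • c • x = c • x
    rw [← mul_smul, hc b hb c hcA, mul_smul, hbx]
  let W0 : AddSubgroup V :=
    { carrier := {v | ∃ b ∈ A, q b = v ∧ b • x = x}
      zero_mem' := ⟨1, A.one_mem, q1, one_smul _ _⟩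
      add_mem' := by
        rintro v w ⟨b, hb, rfl, hbx⟩ ⟨c, hcA, rfl, hcx⟩
        exact ⟨b * c, A.mul_mem hb hcA, hadd b hb c hcA, by rw [mul_smul, hcx, hbx]⟩
      neg_mem' := by
        rintro v ⟨b, hb, rfl, hbx⟩
        exact ⟨b⁻¹, A.inv_mem hb, qinv b hb, by rw [inv_smul_eq_iff, hbx]⟩ }
  let W : Submodule (ZMod r) V := AddSubgroup.toZModSubmodule r W0
  have hWmem : ∀ b ∈ A, q b ∈ W ↔ b • x = x := by
    intro b hb
    constructor
    · rintro ⟨c, hcA, hcb, hcx⟩
      rw [← qinj c hcA b hb hcb]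
      exact hcx
    · intro h
      exact ⟨b, hb, rfl, h⟩
  have hWinv : ∀ h : Kor A X, ∀ v ∈ W, resrep ρ (Kor A X) h v ∈ W := by
    rintro ⟨h, hh⟩ v ⟨b, hb, rfl, hbx⟩
    change ρ h (q b) ∈ W
    rw [← hconj h b hb, hWmem _ (Subgroup.Normal.conj_mem inferInstance b hb h)]
    have h1 : h⁻¹ • x ∈ MulAction.orbit A x := (Kor A X).inv_mem hh x
    rw [mul_smul, mul_smul, hfix b hb hbx _ h1, smul_inv_smul]
  obtain ⟨σ, hσ⟩ := quot_rep (resrep ρ (Kor A X)) W hWinv
  have hcrσ : CR σ := cr_map (resrep ρ (Kor A X)) hcrK σ W.mkQ W.mkQ_surjective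
    (fun h v => (hσ h v).symm)
  have hfU : Finite (V ⧸ W) := Finite.of_surjective _ W.mkQ_surjective
  have heq : ∀ b ∈ A, ∀ c ∈ A, W.mkQ (q b) = W.mkQ (q c) ↔ b • x = c • x := by
    intro b hb c hcA
    rw [Submodule.mkQ_apply, Submodule.mkQ_apply, Submodule.Quotient.eq]
    have h1 : q b - q c = q (b * c⁻¹) := by
      rw [hadd b hb _ (A.inv_mem hcA), qinv c hcA, sub_eq_add_neg]
    rw [h1, hWmem _ (A.mul_mem hb (A.inv_mem hcA)), hc b hb _ (A.inv_mem hcA), mul_smul,
      inv_smul_eq_iff]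
  have hcardU : Nat.card (V ⧸ W) = r ^ a := by
    rw [← hx]
    let g : MulAction.orbit A x → V ⧸ W := fun y => W.mkQ (q (Classical.choose y.2 : A))
    have hg : ∀ y : MulAction.orbit A x, ∃ b ∈ A, b • x = y ∧ g y = W.mkQ (q b) := by
      intro y
      exact ⟨(Classical.choose y.2 : A), (Classical.choose y.2).2, Classical.choose_spec y.2, rfl⟩
    refine (Nat.card_congr (Equiv.ofBijective g ⟨?_, ?_⟩)).symm
    · intro y z hyz
      obtain ⟨b, hb, hby, hgb⟩ := hg y
      obtain ⟨c, hcA, hcz, hgc⟩ := hg z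
      rw [hgb, hgc, heq b hb c hcA] at hyz
      apply Subtype.ext
      rw [← hby, ← hcz, hyz]
    · intro u
      obtain ⟨v, rfl⟩ := W.mkQ_surjective u
      obtain ⟨c, hcA, rfl⟩ := hsurj v
      obtain ⟨b, hb, hby, hgb⟩ := hg ⟨c • x, ⟨⟨c, hcA⟩, rfl⟩⟩
      refine ⟨⟨c • x, ⟨⟨c, hcA⟩, rfl⟩⟩, ?_⟩
      rw [hgb, heq b hb c hcA]
      exact hby
  have hfr : Module.finrank (ZMod r) (V ⧸ W) ≤ a := by
    have h1 := Module.natCard_eq_pow_finrank (K := ZMod r) (V := V ⧸ W)
    rw [hcardU, Nat.card_zmod] at h1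
    exact (Nat.pow_right_injective (Fact.out : r.Prime).two_le h1).ge
  have hfin := hm (V ⧸ W) σ hcrσ hfr
  obtain ⟨⟨b, hb⟩, hbx⟩ := k.2 x
  change b • x = (k : H) • x at hbx
  refine ⟨b, hb, ?_⟩
  rintro y ⟨⟨c, hcA⟩, rfl⟩
  change (k : H) • c • x = b • c • x
  have hcn : (k : H) * c * (k : H)⁻¹ ∈ A := Subgroup.Normal.conj_mem inferInstance c hcA _
  have h1 : ((k : H) * c * (k : H)⁻¹) • x = c • x := by
    rw [← heq _ hcn c hcA, hconj _ c hcA]
    have h2 := hσ k (q c)
    rw [hfin] at h2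
    exact h2.symm
  have h3 : (k : H) • c • x = ((k : H) * c * (k : H)⁻¹) • (k : H) • x := by
    rw [← mul_smul, ← mul_smul]
    congr 1
    group
  rw [h3, ← hbx, ← mul_smul, hc _ hcn b hb, mul_smul, h1]

/-- The recursion for transitive permutation groups. -/
theorem perm_step_F (H : Type) [Group H] [Finite H] (X : Type) [Finite X] [MulAction H X]
    (hH : Group.IsSolvable H)
    (hf : ∀ h : H, (∀ x : X, h • x = x) → h = 1) (ht : MulAction.IsPretransitive H X)
    (hX : 2 ≤ Nat.card X) :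
    ∃ (r a n' : ℕ) (K : Subgroup H) (_ : K.Normal), r.Prime ∧ 1 ≤ a ∧
      Nat.card X = n' * r ^ a ∧
      (∃ (Y : Type) (_ : Finite Y) (_ : MulAction (H ⧸ K) Y),
        (∀ h : H ⧸ K, (∀ y : Y, h • y = y) → h = 1) ∧ MulAction.IsPretransitive (H ⧸ K) Y ∧
        Nat.card Y = n') ∧
      (∀ F : ∀ (G : Type) [Group G], Subgroup G, Fct F → LinF F r a → ⁅F K, F K⁆ = ⊥) := by
  classical
  have : Nontrivial X := by
    rw [← Finite.one_lt_card_iff_nontrivial]
    omega
  obtain ⟨x0, y0, hxy⟩ := exists_pair_ne X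
  have : Nontrivial H := by
    obtain ⟨h, hh⟩ := ht.exists_smul_eq x0 y0
    refine ⟨⟨h, 1, ?_⟩⟩
    rintro rfl
    rw [one_smul] at hh
    exact hxy hh
  obtain ⟨r, A, hr, hAn, hA0, hc, hexp, hmin⟩ := exists_min_normal H hH
  have := Fact.mk hr
  obtain ⟨a, ha, hall, hcard⟩ := orbit_part hf ht r hr A hA0 hexp
  refine ⟨r, a, Nat.card (MulAction.orbitRel.Quotient A X), Kor A X, inferInstance, hr, ha, hcard,
    ?_, ?_⟩
  · let φ : H ⧸ Kor A X →* Equiv.Perm (MulAction.orbitRel.Quotient A X) :=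
      QuotientGroup.lift (Kor A X) (orbHom A X) (by
        intro h hh
        rw [← ker_orbHom] at hh
        exact hh)
    have hφ : ∀ h : H, φ (h : H ⧸ Kor A X) = orbHom A X h := fun h => rfl
    refine ⟨MulAction.orbitRel.Quotient A X, inferInstance,
      MulAction.compHom (MulAction.orbitRel.Quotient A X) φ, ?_, ?_, rfl⟩
    · intro h hh
      obtain ⟨h, rfl⟩ := QuotientGroup.mk_surjective h
      rw [QuotientGroup.eq_one_iff, ← ker_orbHom, MonoidHom.mem_ker]
      ext q
      exact hh q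
    · refine @MulAction.IsPretransitive.mk _ _ (MulAction.compHom _ φ).toSMul ?_
      intro p q
      induction p using Quotient.inductionOn' with
      | h x =>
        induction q using Quotient.inductionOn' with
        | h y =>
          obtain ⟨h, rfl⟩ := ht.exists_smul_eq x y
          exact ⟨(h : H ⧸ Kor A X), orbHom_mk A h x⟩
  intro F hF hm
  have hK : Group.IsSolvable (Kor A X) :=
    Group.isSolvable_of_isSolvable_injective (Kor A X).subtype_injective
  have hone : ∀ x : X, ∀ k ∈ F (Kor A X),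
      ∃ b ∈ A, ∀ y ∈ MulAction.orbit A x, (k : H) • y = b • y := fun x k hk =>
    one_orbit' A hA0 r hc hexp hmin a x (hall x) k
      (fun U _ _ _ σ hσ hfr => linF_ker hF hm (Kor A X) U σ hK hσ hfr k hk)
  rw [Subgroup.eq_bot_iff_forall]
  intro k hk
  apply Subtype.ext
  apply hf
  intro x
  let E : Subgroup (Kor A X) :=
    { carrier := {k | (k : H) • x = x}
      one_mem' := one_smul _ _
      mul_mem' := by
        intro g h hg hh
        change ((g : H) * (h : H)) • x = x
        rw [mul_smul, hh, hg]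
      inv_mem' := by
        intro g hg
        change ((g : H)⁻¹) • x = x
        rw [inv_smul_eq_iff]
        exact hg.symm }
  have hE : ⁅F (Kor A X), F (Kor A X)⁆ ≤ E := by
    rw [Subgroup.commutator_le]
    intro g hg h hh
    obtain ⟨b, hb, hgb⟩ := hone x g hg
    obtain ⟨c, hcA, hhc⟩ := hone x h hh
    change ((g : H) * (h : H) * (g : H)⁻¹ * (h : H)⁻¹) • x = x
    let z : X := ((g : H)⁻¹ * (h : H)⁻¹) • x
    have hz : z ∈ MulAction.orbit A x :=
      ((Kor A X).mul_mem ((Kor A X).inv_mem g.2) ((Kor A X).inv_mem h.2)) x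
    have hz' : ∀ d ∈ A, d • z ∈ MulAction.orbit A x := by
      intro d hd
      rw [← MulAction.orbit_eq_iff.mpr hz]
      exact ⟨⟨d, hd⟩, rfl⟩
    have h1 : ((g : H) * (h : H)) • z = ((h : H) * (g : H)) • z := by
      have e1 : ((g : H) * (h : H)) • z = (b * c) • z := by
        rw [mul_smul, hhc z hz, hgb _ (hz' c hcA), mul_smul]
      have e2 : ((h : H) * (g : H)) • z = (c * b) • z := by
        rw [mul_smul, hgb z hz, hhc _ (hz' b hb), mul_smul]
      rw [e1, e2, hc b hb c hcA]
    have h2 : ((h : H) * (g : H)) • z = x := by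
      change ((h : H) * (g : H)) • ((g : H)⁻¹ * (h : H)⁻¹) • x = x
      rw [← mul_smul]
      have : (h : H) * (g : H) * ((g : H)⁻¹ * (h : H)⁻¹) = 1 := by group
      rw [this, one_smul]
    rw [mul_assoc, mul_smul]
    rw [h2] at h1
    exact h1
  exact hE hk

end Pool.Agent.Helper47.RS4
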