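import Pool.Agent.Helper47.RS4.PermF

/-!
# RS, exponent 1/4: types of transitive soluble permutation groups
-/

set_option autoImplicit false

open scoped Pointwise

namespace Pool.Agent.Helper47.RS4

open Pool.Agent.Helper98.RS Pool.Agent.Helper47.RS

open scoped commutatorElement

/-- `4 ^ (1 + fr r a) ≤ r ^ (3 a)` unless `(r, a) = (3, 2)`. -/
theorem fr_num (r a : ℕ) (hr : r.Prime) (ha : 1 ≤ a) (h : ¬ (r = 3 ∧ a = 2)) :
    4 ^ (fr r a + 1) ≤ r ^ (3 * a) := by
  by_cases h2 : r = 2
  · subst h2
    rcases Nat.lt_or_ge a 4 with h4 | h4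
    · interval_cases a <;> simp [fr]
    · have hf : fr 2 a = a + 1 := by
        simp only [fr, if_true]
        rw [if_neg (by omega), if_neg (by omega)]
      rw [hf]
      have : (4 : ℕ) = 2 ^ 2 := by norm_num
      rw [this, ← pow_mul]
      exact Nat.pow_le_pow_right (by norm_num) (by omega)
  · by_cases h3 : r = 3
    · subst h3
      rcases Nat.lt_or_ge a 3 with h4 | h4
      · have : a = 1 := by omega
        subst this
        simp [fr]
      · have hf : fr 3 a = 2 * a := by
          simp only [fr]
          rw [if_neg (by norm_num), if_neg (by omega)]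
        rw [hf]
        induction a, h4 using Nat.le_induction with
        | base => norm_num
        | succ n hn ih =>
          have hf' : fr 3 n = 2 * n := by
            simp only [fr]
            rw [if_neg (by norm_num), if_neg (by omega)]
          have ih' := ih (by omega) (by omega) hf'
          calc 4 ^ (2 * (n + 1) + 1) = 16 * 4 ^ (2 * n + 1) := by ring
            _ ≤ 27 * 3 ^ (3 * n) := Nat.mul_le_mul (by norm_num) ih'
            _ = 3 ^ (3 * (n + 1)) := by ring
    · have h5 : 5 ≤ r := by
        have := hr.two_le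
        by_contra h5
        have h4 : r = 4 := by omega
        subst h4
        exact absurd hr (by norm_num)
      have hf : fr r a ≤ 2 * a := by
        simp only [fr, if_neg h2]
        split_ifs <;> omega
      calc 4 ^ (fr r a + 1) ≤ 4 ^ (2 * a + a) := Nat.pow_le_pow_right (by norm_num) (by omega)
        _ = (4 ^ 3) ^ a := by rw [← pow_mul]; congr 1; ring
        _ ≤ (r ^ 3) ^ a := by
          refine Nat.pow_le_pow_left ?_ a
          calc 4 ^ 3 ≤ 5 ^ 3 := by norm_num
            _ ≤ r ^ 3 := Nat.pow_le_pow_left h5 3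
        _ = r ^ (3 * a) := by rw [pow_mul]

/-- Types of transitive soluble permutation groups; `Ser s G` is the subgroup of `G` obtained by the
word `s`, abstract form. -/
theorem perm_ty_abs (Ser : List Bool → ∀ (G : Type) [Group G], Subgroup G) (bits : List Bool → ℕ)
    (h0 : ∀ (G : Type) [Group G], Ser [] G = ⊤)
    (hF : ∀ s, Fct (Ser s))
    (hC : ∀ (s : List Bool) (G : Type) [Group G], Ser (s ++ [false]) G = ⁅Ser s G, Ser s G⁆)
    (hext : ∀ (s t : List Bool) (G : Type) [Group G] (K : Subgroup G) [K.Normal],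
      Ser s (G ⧸ K) = ⊥ → Ser t K = ⊥ → Ser (s ++ t) G = ⊥)
    (hb0 : bits [] = 0) (hb : ∀ s t, bits (s ++ t) = bits s + bits t) (hb1 : bits [false] = 2)
    (hlin : ∀ r a, r.Prime → 1 ≤ a → ∃ s : List Bool, LinF (Ser s) r a ∧
      2 ^ (bits s + 2) ≤ r ^ (3 * a)) :
    ∀ (n : ℕ) (H : Type) [Group H] [Finite H] (X : Type) [Finite X] [MulAction H X],
      Nat.card X = n → 1 ≤ n → Group.IsSolvable H → (∀ h : H, (∀ x : X, h • x = x) → h = 1) →
      MulAction.IsPretransitive H X → ∃ s : List Bool, Ser s H = ⊥ ∧ 2 ^ bits s ≤ n ^ 3 := by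
  intro n
  induction n using Nat.strong_induction_on with
  | _ n ih =>
    intro H _ _ X _ _ hX hn hH hf ht
    rcases Nat.lt_or_ge n 2 with hn2 | hn2
    · have hn1 : n = 1 := by omega
      refine ⟨[], ?_, ?_⟩
      · rw [h0, Subgroup.eq_bot_iff_forall]
        intro g _
        apply hf
        intro x
        have h1 : Subsingleton X := (Nat.card_eq_one_iff_unique.mp (hX.trans hn1)).1
        exact Subsingleton.elim _ _
      · rw [hb0, hn1]
        norm_num
    · obtain ⟨r, a, n', K, hKn, hr, ha, hcard, ⟨Y, hYf, hYa, hYfa, hYt, hYc⟩, hK⟩ :=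
        perm_step_F H X hH hf ht (by omega)
      obtain ⟨s, hs, hsb⟩ := hlin r a hr ha
      have hK' := hK (Ser s) (hF s) hs
      have hra : 2 ≤ r ^ a := hr.two_le.trans (Nat.le_self_pow (by omega) r)
      have hn'0 : 1 ≤ n' := by
        rcases Nat.eq_zero_or_pos n' with h | h
        · rw [h, zero_mul] at hcard
          omega
        · exact h
      have hn' : n' < n := by
        rw [← hX, hcard]
        exact lt_mul_of_one_lt_right hn'0 (by omega)
      have hsol : Group.IsSolvable (H ⧸ K) :=
        Group.isSolvable_of_surjective (QuotientGroup.mk'_surjective K)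
      obtain ⟨t, ht1, ht2⟩ := ih n' hn' (H ⧸ K) Y hYc hn'0 hsol hYfa hYt
      refine ⟨t ++ (s ++ [false]), hext _ _ H K ht1 ?_, ?_⟩
      · rw [hC]
        exact hK'
      · rw [hb, hb, hb1, pow_add, ← hX, hcard, mul_pow, ← pow_mul, mul_comm a 3]
        exact Nat.mul_le_mul ht2 hsb

end Pool.Agent.Helper47.RS4
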